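import Pool.Agent.D0H90.HT.Stm

set_option autoImplicit false

/-! Module LN of project HT: path lifting for the quotient of `ℂ^N` by the sign. The lift is a limit
along an ultrafilter of discrete lifts with signs chosen step by step. -/

open Filter Topology

namespace Pool.Agent.D0H33.HT

/-- The key inequality: the matrices `v_i v_j` separate vectors up to sign. -/
theorem key {N : ℕ} (v w : Fin N → ℂ) (D : ℝ)
    (h : ∀ i j, ‖v i * v j - w i * w j‖ ≤ D) (hD : 0 ≤ D) :
    ‖v - w‖ * ‖v + w‖ ≤ 3 * D := by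
  rcases Nat.eq_zero_or_pos N with rfl | hN
  · have : v - w = 0 := Subsingleton.elim _ _
    rw [this, norm_zero, zero_mul]; positivity
  haveI : Nonempty (Fin N) := ⟨⟨0, hN⟩⟩
  obtain ⟨i, hi⟩ := Finite.exists_max (fun i => ‖(v - w) i‖)
  obtain ⟨j, hj⟩ := Finite.exists_max (fun i => ‖(v + w) i‖)
  have ha : ‖v - w‖ = ‖(v - w) i‖ :=
    le_antisymm ((pi_norm_le_iff_of_nonneg (norm_nonneg _)).2 hi) (norm_le_pi_norm _ i)
  have hb : ‖v + w‖ = ‖(v + w) j‖ :=
    le_antisymm ((pi_norm_le_iff_of_nonneg (norm_nonneg _)).2 hj) (norm_le_pi_norm _ j)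
  set a := v - w with ha'
  set b := v + w with hb'
  have e1 : a i * b i = v i * v i - w i * w i := by
    simp only [ha', hb', Pi.sub_apply, Pi.add_apply]; ring
  have e2 : a i * b j + b i * a j = 2 * (v i * v j - w i * w j) := by
    simp only [ha', hb', Pi.sub_apply, Pi.add_apply]; ring
  have h1 : ‖a i‖ * ‖b i‖ ≤ D := by rw [← norm_mul, e1]; exact h i i
  have h2 : ‖a i * b j + b i * a j‖ ≤ 2 * D := by
    rw [e2, norm_mul]; simpa using h i j
  have h3 : ‖a i‖ * ‖b j‖ ≤ 2 * D + ‖b i‖ * ‖a i‖ := by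
    calc ‖a i‖ * ‖b j‖ = ‖(a i * b j + b i * a j) - b i * a j‖ := by
          rw [← norm_mul]; congr 1; ring
      _ ≤ ‖a i * b j + b i * a j‖ + ‖b i * a j‖ := norm_sub_le _ _
      _ ≤ 2 * D + ‖b i‖ * ‖a i‖ := by
          rw [norm_mul (b i)]
          exact add_le_add h2 (mul_le_mul_of_nonneg_left (hi j) (norm_nonneg _))
  rw [ha, hb]
  nlinarith [h1, h3]

/-- Discrete lifts with small steps: the sign is consistent. -/
theorem discrete {N : ℕ} (w : ℕ → Fin N → ℂ) (hw : ∀ k, ‖w (k + 1) - w k‖ ≤ ‖w (k + 1) + w k‖)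
    (r : ℝ) (hr : 0 ≤ r) (k l : ℕ) (hkl : k ≤ l)
    (h : ∀ j, k ≤ j → j ≤ l → ‖w j - w k‖ * ‖w j + w k‖ ≤ r ^ 2) :
    ‖w l - w k‖ ≤ 5 * r := by
  have hmin : ∀ j, k ≤ j → j ≤ l → ‖w j - w k‖ ≤ r ∨ ‖w j + w k‖ ≤ r := by
    intro j h1 h2
    by_contra hc
    push Not at hc
    have := h j h1 h2
    nlinarith [hc.1, hc.2, mul_pos (lt_of_le_of_lt hr hc.1) (lt_of_le_of_lt hr hc.2),
      mul_lt_mul'' hc.1 hc.2 hr hr]
  by_cases hk : ‖w k‖ ≤ 2 * r
  · rcases hmin l hkl le_rfl with h1 | h1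
    · linarith
    · have : ‖w l - w k‖ ≤ ‖w l + w k‖ + 2 * ‖w k‖ := by
        calc ‖w l - w k‖ = ‖(w l + w k) - (2 : ℂ) • w k‖ := by
              congr 1; rw [two_smul]; abel
          _ ≤ ‖w l + w k‖ + ‖(2 : ℂ) • w k‖ := norm_sub_le _ _
          _ = _ := by rw [norm_smul]; norm_num
      linarith
  · push Not at hk
    have key : ∀ j, k ≤ j → j ≤ l → ‖w j - w k‖ ≤ r := by
      intro j hj
      induction j, hj using Nat.le_induction with
      | base => intro _; simpa using hr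
      | succ j hj ih =>
        intro hjl
        have h0 := ih (by omega)
        rcases hmin (j + 1) (by omega) hjl with h1 | h1
        · exact h1
        · exfalso
          have h2 : ‖w (j + 1) + w j‖ ≤ 2 * r := by
            calc ‖w (j + 1) + w j‖ = ‖(w (j + 1) + w k) + (w j - w k)‖ := by congr 1; abel
              _ ≤ ‖w (j + 1) + w k‖ + ‖w j - w k‖ := norm_add_le _ _
              _ ≤ 2 * r := by linarith
          have h3 := hw j
          have h4 : ‖w (j + 1) - w k‖ ≤ 3 * r := by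
            calc ‖w (j + 1) - w k‖ = ‖(w (j + 1) - w j) + (w j - w k)‖ := by congr 1; abel
              _ ≤ ‖w (j + 1) - w j‖ + ‖w j - w k‖ := norm_add_le _ _
              _ ≤ 3 * r := by linarith
          have h5 : 2 * ‖w k‖ ≤ 4 * r := by
            calc 2 * ‖w k‖ = ‖(2 : ℂ) • w k‖ := by rw [norm_smul]; norm_num
              _ = ‖(w (j + 1) + w k) - (w (j + 1) - w k)‖ := by
                  congr 1; rw [two_smul]; abel
              _ ≤ ‖w (j + 1) + w k‖ + ‖w (j + 1) - w k‖ := norm_sub_le _ _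
              _ ≤ 4 * r := by linarith
          linarith
    have := key l hkl le_rfl
    linarith

/-- Discrete lifts exist. -/
theorem exists_discrete {N : ℕ} (M : ℕ → Fin N → Fin N → ℂ)
    (hM : ∀ k, ∃ v : Fin N → ℂ, ∀ i j, M k i j = v i * v j) :
    ∃ w : ℕ → Fin N → ℂ, (∀ k i j, M k i j = w k i * w k j) ∧
      ∀ k, ‖w (k + 1) - w k‖ ≤ ‖w (k + 1) + w k‖ := by
  classical
  choose f hf using hM
  let w : ℕ → Fin N → ℂ := fun k => Nat.rec (f 0)
    (fun k u => if ‖f (k + 1) - u‖ ≤ ‖f (k + 1) + u‖ then f (k + 1) else - f (k + 1)) k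
  have hw0 : w 0 = f 0 := rfl
  have hws : ∀ k, w (k + 1) =
      if ‖f (k + 1) - w k‖ ≤ ‖f (k + 1) + w k‖ then f (k + 1) else - f (k + 1) := fun k => rfl
  refine ⟨w, ?_, ?_⟩
  · intro k i j
    cases k with
    | zero => rw [hw0]; exact hf 0 i j
    | succ k =>
      rw [hws]
      split_ifs
      · exact hf _ i j
      · rw [hf]; simp
  · intro k
    rw [hws]
    split_ifs with h
    · exact h
    · push Not at h
      have e1 : ‖-f (k + 1) - w k‖ = ‖f (k + 1) + w k‖ := by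
        rw [← norm_neg]; congr 1; abel
      have e2 : ‖-f (k + 1) + w k‖ = ‖f (k + 1) - w k‖ := by
        rw [← norm_neg]; congr 1; abel
      rw [e1, e2]; exact h.le

theorem t_LN : Pool.Agent.D0H90.HT.S_LN := by
  classical
  intro N m hm hv
  -- extension to the real line
  let M : ℝ → Fin N → Fin N → ℂ := fun x => m (Set.projIcc (0 : ℝ) 1 zero_le_one x)
  have hMc : Continuous M := hm.comp continuous_projIcc
  have hMv : ∀ x, ∃ v : Fin N → ℂ, ∀ i j, M x i j = v i * v j := fun x => hv _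
  have hMu : UniformContinuous M := by
    have h1 : UniformContinuous m := CompactSpace.uniformContinuous_of_continuous hm
    have h2 : UniformContinuous (Set.projIcc (0 : ℝ) 1 zero_le_one) := by
      have : LipschitzWith 1 (Set.projIcc (0 : ℝ) 1 zero_le_one) := LipschitzWith.projIcc _
      exact this.uniformContinuous
    exact h1.comp h2
  have hMe : ∀ t : unitInterval, M t = m t := fun t => by
    show m (Set.projIcc (0 : ℝ) 1 zero_le_one (t : ℝ)) = m t
    rw [Set.projIcc_val]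
  obtain ⟨C, hC⟩ : ∃ C : ℝ, ∀ t, ‖m t‖ ≤ C := by
    obtain ⟨C, hC⟩ := (isCompact_range hm.norm).bddAbove
    exact ⟨C, fun t => hC ⟨t, rfl⟩⟩
  let h : ℕ → ℝ := fun n => 1 / ((n : ℝ) + 1)
  have hpos : ∀ n, 0 < h n := fun n => Nat.one_div_pos_of_nat
  have hlim : Tendsto h atTop (𝓝 0) := tendsto_one_div_add_atTop_nhds_zero_nat
  have hex : ∀ n, ∃ w : ℕ → Fin N → ℂ, (∀ (k : ℕ) i j, M ((k : ℝ) * h n) i j = w k i * w k j) ∧
      ∀ k, ‖w (k + 1) - w k‖ ≤ ‖w (k + 1) + w k‖ := fun n =>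
    exists_discrete (fun k => M ((k : ℝ) * h n)) (fun k => hMv _)
  choose w hw1 hw2 using hex
  -- bound
  have hbd : ∀ n k, ‖w n k‖ ≤ C + 1 := by
    intro n k
    have hC0 : 0 ≤ C := le_trans (norm_nonneg _) (hC 0)
    refine (pi_norm_le_iff_of_nonneg (by linarith)).2 fun i => ?_
    have e : ‖w n k i‖ * ‖w n k i‖ ≤ C := by
      rw [← norm_mul, ← hw1]
      exact le_trans (le_trans (norm_le_pi_norm _ i) (norm_le_pi_norm _ i)) (hC _)
    nlinarith [norm_nonneg (w n k i)]
  let V : ℕ → ℝ → Fin N → ℂ := fun n t => w n ⌊t / h n⌋₊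
  let U : Ultrafilter ℕ := hyperfilter ℕ
  have hU : (U : Filter ℕ) ≤ atTop := Nat.hyperfilter_le_atTop
  have hlimV : ∀ t : ℝ, ∃ x : Fin N → ℂ, Tendsto (fun n => V n t) U (𝓝 x) := by
    intro t
    have hK : IsCompact (Metric.closedBall (0 : Fin N → ℂ) (C + 1)) := isCompact_closedBall _ _
    have hmem : (U.map (fun n => V n t) : Ultrafilter (Fin N → ℂ)) ≤
        (𝓟 (Metric.closedBall (0 : Fin N → ℂ) (C + 1))) := by
      rw [Ultrafilter.coe_map, le_principal_iff]
      refine Filter.mem_map.2 (Filter.univ_mem' fun n => ?_)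
      simpa [V] using hbd n _
    obtain ⟨x, _, hx⟩ := hK.ultrafilter_le_nhds _ hmem
    exact ⟨x, hx⟩
  choose v hv' using hlimV
  -- the discrete estimate
  have hest : ∀ ε : ℝ, 0 < ε → ∃ δ : ℝ, 0 < δ ∧ ∀ s t : ℝ, 0 ≤ s → s ≤ t → t - s < δ →
      ‖v t - v s‖ ≤ ε := by
    intro ε hε
    obtain ⟨δ, hδ, hMδ⟩ := Metric.uniformContinuous_iff.1 hMu ((ε / 5) ^ 2 / 3) (by positivity)
    refine ⟨δ / 2, by positivity, fun s t hs hst hts => ?_⟩
    have hev : ∀ᶠ n in (U : Filter ℕ), ‖V n t - V n s‖ ≤ ε := by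
      have hsm : ∀ᶠ n in (U : Filter ℕ), h n < δ / 2 :=
        hU (hlim.eventually (gt_mem_nhds (by positivity)))
      filter_upwards [hsm] with n hn
      have hh := hpos n
      have := discrete (w n) (hw2 n) (ε / 5) (by positivity) ⌊s / h n⌋₊ ⌊t / h n⌋₊
        (Nat.floor_mono (div_le_div_of_nonneg_right hst hh.le)) (fun j hj1 hj2 => by
          refine le_trans (key _ _ ((ε / 5) ^ 2 / 3) (fun a b => ?_) (by positivity)) (by
            linarith)
          rw [← hw1, ← hw1]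
          have h1 : dist ((j : ℝ) * h n) ((⌊s / h n⌋₊ : ℝ) * h n) < δ := by
            rw [Real.dist_eq, ← sub_mul, abs_mul, abs_of_pos hh]
            have hj1' : (⌊s / h n⌋₊ : ℝ) ≤ j := by exact_mod_cast hj1
            have hj2' : (j : ℝ) ≤ ⌊t / h n⌋₊ := by exact_mod_cast hj2
            rw [abs_of_nonneg (by linarith)]
            have h3 : (⌊t / h n⌋₊ : ℝ) ≤ t / h n := Nat.floor_le (div_nonneg (by linarith) hh.le)
            have h4 : s / h n < (⌊s / h n⌋₊ : ℝ) + 1 := Nat.lt_floor_add_one _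
            have h5 : ((j : ℝ) - ⌊s / h n⌋₊) ≤ t / h n - s / h n + 1 := by linarith
            calc ((j : ℝ) - ⌊s / h n⌋₊) * h n ≤ (t / h n - s / h n + 1) * h n :=
                  mul_le_mul_of_nonneg_right h5 hh.le
              _ = (t - s) + h n := by field_simp
              _ < δ := by linarith
          have h2 := hMδ h1
          rw [dist_eq_norm] at h2
          exact le_trans (le_trans (norm_le_pi_norm
            (M ((j : ℝ) * h n) a - M ((⌊s / h n⌋₊ : ℝ) * h n) a) b)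
            (norm_le_pi_norm (M ((j : ℝ) * h n) - M ((⌊s / h n⌋₊ : ℝ) * h n)) a)) h2.le)
      calc ‖V n t - V n s‖ ≤ 5 * (ε / 5) := this
        _ = ε := by ring
    exact le_of_tendsto ((hv' t).sub (hv' s)).norm hev
  refine ⟨fun t => v t, ?_, ?_⟩
  · rw [Metric.continuous_iff]
    intro t ε hε
    obtain ⟨δ, hδ, hδ'⟩ := hest (ε / 2) (by positivity)
    refine ⟨δ, hδ, fun s hs => ?_⟩
    rw [Subtype.dist_eq, Real.dist_eq] at hs
    rw [dist_eq_norm]
    rcases le_total (s : ℝ) t with hst | hst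
    · rw [abs_of_nonpos (by linarith)] at hs
      have := hδ' s t s.2.1 hst (by linarith)
      rw [norm_sub_rev] at this
      linarith
    · rw [abs_of_nonneg (by linarith)] at hs
      have := hδ' t s t.2.1 hst (by linarith)
      linarith
  · intro t i j
    have h1 : Tendsto (fun n => V n t i * V n t j) U (𝓝 (v t i * v t j)) :=
      ((tendsto_pi_nhds.1 (hv' t) i)).mul (tendsto_pi_nhds.1 (hv' t) j)
    have h2 : Tendsto (fun n => M ((⌊(t : ℝ) / h n⌋₊ : ℝ) * h n) i j) U (𝓝 (M t i j)) := by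
      have h3 : Tendsto (fun n => (⌊(t : ℝ) / h n⌋₊ : ℝ) * h n) atTop (𝓝 (t : ℝ)) := by
        rw [Metric.tendsto_atTop]
        intro ε hε
        obtain ⟨n0, hn0⟩ := (Metric.tendsto_atTop.1 hlim) ε hε
        refine ⟨n0, fun n hn => ?_⟩
        have hh := hpos n
        have h5 := hn0 n hn
        rw [Real.dist_eq, sub_zero, abs_of_pos hh] at h5
        have h3 : (⌊(t : ℝ) / h n⌋₊ : ℝ) ≤ t / h n := Nat.floor_le (div_nonneg t.2.1 hh.le)
        have h4 : (t : ℝ) / h n < (⌊(t : ℝ) / h n⌋₊ : ℝ) + 1 := Nat.lt_floor_add_one _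
        have h6 : (⌊(t : ℝ) / h n⌋₊ : ℝ) * h n ≤ t := by
          calc _ ≤ ((t : ℝ) / h n) * h n := mul_le_mul_of_nonneg_right h3 hh.le
            _ = t := by field_simp
        have h7 : (t : ℝ) < (⌊(t : ℝ) / h n⌋₊ : ℝ) * h n + h n := by
          calc (t : ℝ) = ((t : ℝ) / h n) * h n := by field_simp
            _ < ((⌊(t : ℝ) / h n⌋₊ : ℝ) + 1) * h n := mul_lt_mul_of_pos_right h4 hh
            _ = _ := by ring
        rw [Real.dist_eq, abs_sub_lt_iff]
        constructor <;> linarith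
      have h4 := (hMc.tendsto (t : ℝ)).comp (h3.mono_left hU)
      exact tendsto_pi_nhds.1 (tendsto_pi_nhds.1 h4 i) j
    have h3 : (fun n => M ((⌊(t : ℝ) / h n⌋₊ : ℝ) * h n) i j) = fun n => V n t i * V n t j := by
      funext n
      exact hw1 n _ i j
    rw [h3] at h2
    rw [← hMe t]
    exact tendsto_nhds_unique h2 h1

end Pool.Agent.D0H33.HT
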